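import Pool.Agent.Q74.BT.Stm5

/-!
# Project BT of helper74, part 5, job Mono (the function `th`), by helper275
-/

set_option autoImplicit false

namespace Pool.Agent.Q275.BT

open Pool.Agent.H395R2.G3 (rr FF rr_spec rr_pos rr_lt_one FF_cont FF_zero)
open Pool.Agent.Q74.BT

lemma l2 : 0 < Real.log 2 := Real.log_pos (by norm_num)

lemma l3 : 0 < Real.log 3 := Real.log_pos (by norm_num)

lemma l43 : Real.log (4 / 3) = 2 * Real.log 2 - Real.log 3 := by
  rw [Real.log_div (by norm_num) (by norm_num), show (4 : ℝ) = 2 ^ 2 by norm_num, Real.log_pow]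
  norm_num

lemma l43_pos : 0 < Real.log (4 / 3) := Real.log_pos (by norm_num)

lemma rr_mul {α : ℝ} (h : 0 < α) :
    α * rr α = (Real.log 2 / Real.log 3) * α - 1 / Real.log 3 := by
  have := l3
  unfold rr
  field_simp

lemma rr_nonneg {α : ℝ} (h : 1 / Real.log 2 ≤ α) : 0 ≤ rr α := by
  rcases h.lt_or_eq with h1 | h1
  · exact (rr_pos h1).le
  · rw [← h1]
    unfold rr
    rw [one_div_one_div, sub_self, zero_div]

lemma pos_of {α : ℝ} (h : 1 / Real.log 2 ≤ α) : 0 < α :=
  lt_of_lt_of_le (one_div_pos.mpr l2) h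

/-- concavity -/
lemma th_conc {x z s t : ℝ} (hx : 1 / Real.log 2 ≤ x) (hz : 1 / Real.log 2 ≤ z) (hs : 0 ≤ s)
    (ht : 0 ≤ t) (hst : s + t = 1) : s * th x + t * th z ≤ th (s * x + t * z) := by
  have hx0 := pos_of hx
  have hz0 := pos_of hz
  set y := s * x + t * z with hy
  have hy0 : 0 < y := by
    rcases hs.lt_or_eq with h | h
    · have h1 : 0 < s * x := mul_pos h hx0
      have h2 : 0 ≤ t * z := mul_nonneg ht hz0.le
      rw [hy]
      linarith
    · have h1 : t = 1 := by linarith
      rw [hy, ← h, h1]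
      linarith
  have h1 := Real.strictConcave_binEntropy.concaveOn.2
    (show rr x ∈ Set.Icc (0 : ℝ) 1 from ⟨rr_nonneg hx, (rr_lt_one hx0).le⟩)
    (show rr z ∈ Set.Icc (0 : ℝ) 1 from ⟨rr_nonneg hz, (rr_lt_one hz0).le⟩)
    (show 0 ≤ s * x / y by positivity) (show 0 ≤ t * z / y by positivity)
    (by rw [← add_div, ← hy, div_self hy0.ne'])
  simp only [smul_eq_mul] at h1
  have h2 : s * x / y * rr x + t * z / y * rr z = rr y := by
    have e1 := rr_mul hx0
    have e2 := rr_mul hz0
    have e3 := rr_mul hy0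
    have e4 : s * x / y * rr x + t * z / y * rr z = (s * (x * rr x) + t * (z * rr z)) / y := by
      ring
    rw [e4, e1, e2, div_eq_iff hy0.ne', mul_comm (rr y) y, e3, hy]
    have e5 : s * (Real.log 2 / Real.log 3 * x - 1 / Real.log 3) +
        t * (Real.log 2 / Real.log 3 * z - 1 / Real.log 3) =
        Real.log 2 / Real.log 3 * (s * x + t * z) - (s + t) * (1 / Real.log 3) := by ring
    rw [e5, hst, one_mul]
  rw [h2] at h1
  have h3 : y * (s * x / y * Real.binEntropy (rr x) + t * z / y * Real.binEntropy (rr z)) =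
      s * (x * Real.binEntropy (rr x)) + t * (z * Real.binEntropy (rr z)) := by
    field_simp
  have h4 := mul_le_mul_of_nonneg_left h1 hy0.le
  rw [h3] at h4
  have h5 : y * rr y = s * (x * rr x) + t * (z * rr z) := by
    rw [← h2]
    field_simp
  unfold th FF
  have e6 : y * (Real.binEntropy (rr y) - rr y * Real.log 3) =
      y * Real.binEntropy (rr y) - (y * rr y) * Real.log 3 := by ring
  rw [e6, h5]
  have e7 : s * (x * (Real.binEntropy (rr x) - rr x * Real.log 3)) +
      t * (z * (Real.binEntropy (rr z) - rr z * Real.log 3)) =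
      s * (x * Real.binEntropy (rr x)) + t * (z * Real.binEntropy (rr z)) -
        (s * (x * rr x) + t * (z * rr z)) * Real.log 3 := by ring
  rw [e7]
  linarith

lemma rr_star : rr (2 / Real.log (4 / 3)) = 1 / 2 := by
  have h3 := l3
  unfold rr
  rw [one_div_div, l43, div_eq_iff h3.ne']
  ring

lemma th_star : th (2 / Real.log (4 / 3)) = 1 := by
  unfold th FF
  rw [rr_star, show (1 / 2 : ℝ) = 2⁻¹ by norm_num, Real.binEntropy_two_inv]
  have h := l43_pos
  rw [div_mul_eq_mul_div, div_eq_one_iff_eq h.ne', l43]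
  ring

lemma star_gt : 1 / Real.log 2 < 2 / Real.log (4 / 3) := by
  rw [div_lt_div_iff₀ l2 l43_pos, l43]
  have := l3
  linarith

lemma rr_inj {x y : ℝ} (hx : 0 < x) (hy : 0 < y) (h : rr x = rr y) : x = y := by
  have h1 := rr_spec x
  have h2 := rr_spec y
  rw [h, ← h2] at h1
  have h3 := congrArg (fun t : ℝ => 1 / t) h1
  simpa using h3

lemma th_lt {x : ℝ} (hx : 1 / Real.log 2 ≤ x) (hne : x ≠ 2 / Real.log (4 / 3)) : th x < 1 := by
  have hx0 := pos_of hx
  have h1 : rr x ≠ 2⁻¹ := by
    intro h
    refine hne (rr_inj hx0 (lt_trans (one_div_pos.mpr l2) star_gt) ?_)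
    rw [rr_star, h]
    norm_num
  have h2 : Real.binEntropy (rr x) < Real.log 2 := Real.binEntropy_lt_log_two.mpr h1
  have h3 := rr_spec x
  have h4 : FF (rr x) < 1 / x := by
    unfold FF
    rw [h3]
    linarith
  unfold th
  calc x * FF (rr x) < x * (1 / x) := mul_lt_mul_of_pos_left h4 hx0
    _ = 1 := by field_simp

/-- **Mono** -/
theorem mono : S_Mono := by
  intro γ hγ
  obtain ⟨hg1, hg2, hg3, hg4⟩ := hγ
  have hl2 := l2
  have hl3 := l3
  have hl43 := l43_pos
  have hstar : 2 / Real.log (4 / 3) < γ := by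
    have l2a := Real.log_two_gt_d9
    have l3b := Real.log_three_lt_d9
    rw [div_lt_iff₀ hl43, l43]
    norm_num at *
    nlinarith
  have hgt := star_gt
  have hs0 : 0 < 2 / Real.log (4 / 3) := by positivity
  refine ⟨hgt, hstar, ?_, ?_, ?_, ?_, th_star, ?_, ?_, ?_, ?_, ?_⟩
  · intro x hx y hy hxy
    have h1 := th_lt hx.1 (ne_of_lt (lt_of_lt_of_le hxy hy.2))
    set z := 2 / Real.log (4 / 3) with hz
    have hzx : 0 < z - x := by linarith [hy.2]
    have h2 := th_conc (x := x) (z := z) (s := (z - y) / (z - x)) (t := (y - x) / (z - x)) hx.1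
      (le_trans hx.1 (by linarith [hy.2])) (div_nonneg (by linarith [hy.2]) hzx.le)
      (div_nonneg (by linarith) hzx.le) (by
        rw [← add_div, div_eq_one_iff_eq hzx.ne']
        ring)
    have e1 : (z - y) / (z - x) * x + (y - x) / (z - x) * z = y := by
      field_simp
      ring
    rw [e1, th_star] at h2
    have h3 : 0 < (y - x) / (z - x) := div_pos (by linarith) hzx
    have h4 : (z - y) / (z - x) = 1 - (y - x) / (z - x) := by
      field_simp
      ring
    rw [h4] at h2
    nlinarith
  · intro x hx y hy hxy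
    have hxl : 1 / Real.log 2 ≤ x := le_trans hgt.le hx.1
    have hyl : 1 / Real.log 2 ≤ y := le_trans hxl hxy.le
    have h1 := th_lt hyl (ne_of_gt (lt_of_le_of_lt hx.1 hxy))
    set z := 2 / Real.log (4 / 3) with hz
    have hzy : 0 < y - z := by linarith [hx.1]
    have h2 := th_conc (x := y) (z := z) (s := (x - z) / (y - z)) (t := (y - x) / (y - z)) hyl
      hgt.le (div_nonneg (by linarith [hx.1]) hzy.le)
      (div_nonneg (by linarith) hzy.le) (by
        rw [← add_div, div_eq_one_iff_eq hzy.ne']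
        ring)
    have e1 : (x - z) / (y - z) * y + (y - x) / (y - z) * z = x := by
      field_simp
      ring
    rw [e1, th_star] at h2
    have h3 : 0 < (y - x) / (y - z) := div_pos (by linarith) hzy
    have h4 : (x - z) / (y - z) = 1 - (y - x) / (y - z) := by
      field_simp
      ring
    rw [h4] at h2
    nlinarith
  · have h1 : ContinuousOn rr (Set.Icc (1 / Real.log 2) γ) := by
      unfold rr
      refine ContinuousOn.div_const (ContinuousOn.sub continuousOn_const
        (ContinuousOn.div continuousOn_const continuousOn_id fun x hx => ?_)) _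
      exact (pos_of hx.1).ne'
    unfold th
    exact continuousOn_id.mul (FF_cont.comp_continuousOn h1)
  · unfold th rr
    rw [one_div_one_div, sub_self, zero_div, FF_zero, mul_zero]
  · unfold th
    rw [hg3, mul_zero]
  · intro α hα
    unfold xx
    have h1 := rr_mul hα
    have h2 : α * (rr α - 1 / 2) = α * rr α - α / 2 := by ring
    rw [h2, h1]
    ring
  · unfold xx
    rw [rr_star]
    ring
  · unfold xx rr
    rw [one_div_one_div, sub_self, zero_div]
    field_simp
    ring
  · unfold DD xx
    rfl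

end Pool.Agent.Q275.BT
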